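import Mathlib

/-!
# A loop in which property (T) holds universally but which does not have the AAIP

The loop has order 128. Its elements are the pairs `(g, a)` with `g ∈ 𝔽₂²` and
`a ∈ A = ℤ/4 × (ℤ/2)³`, and `(g, a)(h, b) = (g + h, F(g,h) + a + b + λ(g,h)a + μ(g,h)b)` where
`λ(g,h)` and `μ(g,h)` are homomorphisms from `A` to `{0, 2} × 0`.
-/

set_option autoImplicit false

namespace Pool.Agent.Results.MP_0d4ca0_al.OrderOneTwentyEight

/-- A loop, with its divisions `ldiv a b = a \ b` and `rdiv b a = b / a`. -/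
class Loop (Q : Type) extends Mul Q, One Q where
  /-- left division `a \ b` -/
  ldiv : Q → Q → Q
  /-- right division `b / a` -/
  rdiv : Q → Q → Q
  one_mul' : ∀ x : Q, 1 * x = x
  mul_one' : ∀ x : Q, x * 1 = x
  mul_ldiv : ∀ a b : Q, a * ldiv a b = b
  ldiv_mul : ∀ a b : Q, ldiv a (a * b) = b
  rdiv_mul : ∀ a b : Q, rdiv b a * a = b
  mul_rdiv : ∀ a b : Q, rdiv (b * a) a = b

open Loop

/-- Property (T): for every `x` the map `y ↦ x \ (y x)` is an automorphism. -/
def PropT (Q : Type) [Loop Q] : Prop :=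
  ∀ x : Q, ∃ φ : Q ≃* Q, ∀ y : Q, φ y = ldiv x (y * x)

/-- `G` is an isotope of `Q`. -/
def IsIsotope (G Q : Type) [Loop G] [Loop Q] : Prop :=
  ∃ α β γ : G ≃ Q, ∀ u v : G, γ (u * v) = α u * β v

/-- Property (T) holds in every loop isotope of `Q`. -/
def UniversallyT (Q : Type) [Loop Q] : Prop :=
  ∀ (G : Type) [Loop G], IsIsotope G Q → PropT G

/-- Every element has a two-sided inverse, and `(xy)⁻¹ = y⁻¹ x⁻¹`. -/
def HasAAIP (Q : Type) [Loop Q] : Prop :=
  ∃ inv : Q → Q, (∀ x : Q, x * inv x = 1 ∧ inv x * x = 1) ∧ ∀ x y : Q, inv (x * y) = inv y * inv x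

/-! ### The group `A` and the homomorphisms `A → {0, 2} × 0` -/

/-- The group `ℤ/4 × (ℤ/2)³`. -/
abbrev A := ZMod 4 × ZMod 2 × ZMod 2 × ZMod 2

/-- The embedding of `ℤ/2` in `ℤ/4`. -/
def tw (x : ZMod 2) : ZMod 4 := if x = 0 then 0 else 2

/-- `v` if the `j`-th bit of `l` is one, and `0` otherwise. -/
def bt (l j : ℕ) (v : ZMod 4) : ZMod 4 := if l.testBit j then v else 0

/-- The homomorphism `A → {0, 2} × 0` with code `l`. -/
def P (l : ℕ) (a : A) : A :=
  (bt l 0 (2 * a.1) + bt l 1 (tw a.2.1) + bt l 2 (tw a.2.2.1) + bt l 3 (tw a.2.2.2), 0, 0, 0)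

theorem tw_add : ∀ x y : ZMod 2, tw (x + y) = tw x + tw y := by decide

theorem two_tw : ∀ x : ZMod 2, tw x + tw x = 0 := by decide

theorem two_two : ∀ x : ZMod 4, 2 * x + 2 * x = 0 := by decide

theorem bt_add (l j : ℕ) (v w : ZMod 4) : bt l j (v + w) = bt l j v + bt l j w := by
  unfold bt; split <;> simp

theorem bt_xor (l m j : ℕ) {v : ZMod 4} (h : v + v = 0) :
    bt (l ^^^ m) j v = bt l j v + bt m j v := by
  unfold bt
  rw [Nat.testBit_xor]
  cases l.testBit j <;> cases m.testBit j <;> simp [h]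

theorem P_add (l : ℕ) (a b : A) : P l (a + b) = P l a + P l b := by
  simp only [P, Prod.fst_add, Prod.snd_add, tw_add, bt_add, mul_add]
  ext <;> simp
  abel

theorem P_xor (l m : ℕ) (a : A) : P (l ^^^ m) a = P l a + P m a := by
  simp only [P, bt_xor l m _ (two_tw _), bt_xor l m _ (two_two _)]
  ext <;> simp
  abel

theorem P_zero (a : A) : P 0 a = 0 := by
  simp [P, bt]

theorem P_two (l : ℕ) (a : A) : P l a + P l a = 0 := by
  rw [← P_xor, Nat.xor_self, P_zero]

theorem P_P (l m : ℕ) (a : A) : P l (P m a) = 0 := by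
  have h : ∀ x : ZMod 4, 2 * (2 * x) = 0 := by decide
  have h' : ∀ x : ZMod 2, 2 * tw x = 0 := by decide
  have h'' : ∀ (l j : ℕ) (v : ZMod 4), 2 * bt l j v = bt l j (2 * v) := by
    intro l j v; unfold bt; split <;> simp
  have h0 : ∀ l j : ℕ, bt l j 0 = 0 := by intro l j; unfold bt; split <;> rfl
  have ht : tw 0 = 0 := rfl
  simp only [P, mul_add, h'', h, h', h0, ht, add_zero]
  rfl

theorem P_map_zero (l : ℕ) : P l 0 = 0 := by
  have := P_add l 0 0
  rw [add_zero] at this
  simpa using this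

theorem P_nsmul (l n : ℕ) (a : A) : P l (n • a) = n • P l a := by
  induction n with
  | zero => rw [zero_smul, zero_smul, P_map_zero]
  | succ n ih => rw [succ_nsmul, succ_nsmul, P_add, ih]

theorem P_parity (l n : ℕ) (a : A) : P (n % 2 * l) a = n • P l a := by
  have h : ∀ k : ℕ, (2 * k) • P l a = 0 := by
    intro k
    rw [mul_comm, mul_smul, two_smul, P_two, smul_zero]
  rcases Nat.mod_two_eq_zero_or_one n with h0 | h1
  · rw [h0, zero_mul, P_zero]
    conv_rhs => rw [← Nat.div_add_mod n 2, h0, add_zero, h]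
  · rw [h1, one_mul]
    conv_rhs => rw [← Nat.div_add_mod n 2, h1, add_smul, h, one_smul, zero_add]

/-- Codes of endomorphisms `a ↦ n a + λ a` of `A`. -/
abbrev Lin := ℕ × ℕ

/-- The endomorphism with code `r`. -/
def app (r : Lin) (a : A) : A := r.1 • a + P r.2 a

/-- The code of the sum. -/
def ladd (x y : Lin) : Lin := (x.1 + y.1, x.2 ^^^ y.2)

/-- The code of the composition. -/
def lmul (x y : Lin) : Lin := (x.1 * y.1, (x.1 % 2 * y.2) ^^^ (y.1 % 2 * x.2))

theorem app_add (r : Lin) (a b : A) : app r (a + b) = app r a + app r b := by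
  simp only [app, P_add, smul_add]
  abel

theorem app_zero (r : Lin) : app r 0 = 0 := by
  have := app_add r 0 0
  rw [add_zero] at this
  simpa using this

theorem app_ladd (x y : Lin) (a : A) : app (ladd x y) a = app x a + app y a := by
  simp only [app, ladd, P_xor, add_smul]
  abel

theorem app_lmul (x y : Lin) (a : A) : app (lmul x y) a = app x (app y a) := by
  simp only [app, lmul, P_xor, P_parity, P_add, P_P, P_nsmul, smul_add, mul_smul]
  abel

/-- `app` as an additive homomorphism. -/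
def appHom (r : Lin) : A →+ A where
  toFun := app r
  map_zero' := app_zero r
  map_add' := app_add r

/-! ### The loop -/

/-- Addition of `𝔽₂²`, whose elements are coded as `0, 1, 2, 3`. -/
def gadd (g h : Fin 4) : Fin 4 := ⟨g.1 ^^^ h.1, Nat.xor_lt_two_pow (n := 2) g.2 h.2⟩

/-- The entry `(g, h)` of a packed table. -/
def tb (T : ℕ) (g h : Fin 4) : ℕ := (T >>> (4 * (4 * g.1 + h.1))) % 16

/-- The code of `λ(g, h)`. -/
def lam (g h : Fin 4) : ℕ := tb 11096922260715347984 g h

/-- The code of `μ(g, h)`. -/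
def mu (g h : Fin 4) : ℕ := tb 1948489001049849856 g h

/-- The values `F(g, h)`. -/
def F (g h : Fin 4) : A :=
  ((tb 85568461640564736 g h : ℕ), if (tb 5683686080717520896 g h).testBit 1 then 1 else 0,
    if (tb 5683686080717520896 g h).testBit 2 then 1 else 0,
    if (tb 5683686080717520896 g h).testBit 3 then 1 else 0)

/-- The elements `(g, a)`. -/
@[ext] structure Q where
  g : Fin 4
  a : A
deriving DecidableEq

/-- `(g, C + r₁ s + r₂ t)`. -/
def combQ (g : Fin 4) (r₁ r₂ : Lin) (C : A) (s t : Q) : Q := ⟨g, C + (app r₁ s.a + app r₂ t.a)⟩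

/-- The product. -/
def mulQ (s t : Q) : Q :=
  combQ (gadd s.g t.g) (1, lam s.g t.g) (1, mu s.g t.g) (F s.g t.g) s t

/-- The division `s \ p`. -/
def ldivQ (s p : Q) : Q :=
  combQ (gadd s.g p.g) (3, lam s.g (gadd s.g p.g) ^^^ mu s.g (gadd s.g p.g))
    (1, mu s.g (gadd s.g p.g)) (app (3, mu s.g (gadd s.g p.g)) (F s.g (gadd s.g p.g))) s p

/-- The division `p / t`. -/
def rdivQ (p t : Q) : Q :=
  combQ (gadd p.g t.g) (1, lam (gadd p.g t.g) t.g)
    (3, lam (gadd p.g t.g) t.g ^^^ mu (gadd p.g t.g) t.g)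
    (app (3, lam (gadd p.g t.g) t.g) (F (gadd p.g t.g) t.g)) p t

theorem gadd_cancel : ∀ g h : Fin 4, gadd g (gadd g h) = h := by decide

theorem gadd_cancel' : ∀ g h : Fin 4, gadd (gadd g h) h = g := by decide

theorem four_smul_A : ∀ a : A, (4 : ℕ) • a = 0 := by decide

theorem two_smul_P (l : ℕ) (a : A) : (2 : ℕ) • P l a = 0 := by
  rw [two_smul, P_two]

theorem mul_ldivQ (s p : Q) : mulQ s (ldivQ s p) = p := by
  ext1
  · exact gadd_cancel _ _
  · simp only [mulQ, ldivQ, combQ]
    generalize lam s.g (gadd s.g p.g) = l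
    generalize mu s.g (gadd s.g p.g) = m
    generalize F s.g (gadd s.g p.g) = f
    simp only [app, P_add, P_xor, P_P, P_nsmul]
    linear_combination (norm := (simp only [add_zero]; abel)) four_smul_A f + four_smul_A s.a +
      two_smul_P l s.a + four_smul_A (P m f) + four_smul_A (P m s.a) + two_smul_P m p.a

theorem ldiv_mulQ (s t : Q) : ldivQ s (mulQ s t) = t := by
  ext1
  · exact gadd_cancel _ _
  · simp only [mulQ, ldivQ, combQ, gadd_cancel]
    generalize lam s.g t.g = l
    generalize mu s.g t.g = m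
    generalize F s.g t.g = f
    simp only [app, P_add, P_xor, P_P, P_nsmul]
    linear_combination (norm := (simp only [add_zero]; abel)) four_smul_A f + two_smul_P m f +
      four_smul_A s.a + two_smul_P l s.a + two_smul_P m s.a + two_smul_P m t.a

theorem rdiv_mulQ (p t : Q) : mulQ (rdivQ p t) t = p := by
  ext1
  · exact gadd_cancel' _ _
  · simp only [mulQ, rdivQ, combQ]
    generalize lam (gadd p.g t.g) t.g = l
    generalize mu (gadd p.g t.g) t.g = m
    generalize F (gadd p.g t.g) t.g = f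
    simp only [app, P_add, P_xor, P_P, P_nsmul]
    linear_combination (norm := (simp only [add_zero]; abel)) four_smul_A f + four_smul_A (P l f) +
      two_smul_P l p.a + four_smul_A t.a + four_smul_A (P l t.a) + two_smul_P m t.a

theorem mul_rdivQ (s t : Q) : rdivQ (mulQ s t) t = s := by
  ext1
  · exact gadd_cancel' _ _
  · simp only [mulQ, rdivQ, combQ, gadd_cancel']
    generalize lam s.g t.g = l
    generalize mu s.g t.g = m
    generalize F s.g t.g = f
    simp only [app, P_add, P_xor, P_P, P_nsmul]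
    linear_combination (norm := (simp only [add_zero]; abel)) four_smul_A f + two_smul_P l f +
      two_smul_P l s.a + four_smul_A t.a + two_smul_P m t.a + two_smul_P l t.a

/-! ### Symbolic evaluation -/

/-- A word in the variables `(gᵢ, aᵢ)`, `i < 5`, evaluated as an affine function of the `aᵢ`. -/
structure Sym where
  g : Fin 4
  c : A
  x : Fin 5 → Lin

/-- The value at `a₀, …, a₄`. -/
def ev (s : Sym) (v : Fin 5 → A) : Q := ⟨s.g, s.c + ∑ i, app (s.x i) (v i)⟩

/-- Symbolic version of `combQ`. -/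
def comb (g : Fin 4) (r₁ r₂ : Lin) (C : A) (s t : Sym) : Sym :=
  ⟨g, C + (app r₁ s.c + app r₂ t.c), fun i => ladd (lmul r₁ (s.x i)) (lmul r₂ (t.x i))⟩

theorem ev_comb (g : Fin 4) (r₁ r₂ : Lin) (C : A) (s t : Sym) (v : Fin 5 → A) :
    ev (comb g r₁ r₂ C s t) v = combQ g r₁ r₂ C (ev s v) (ev t v) := by
  simp only [ev, comb, combQ, app_ladd, app_lmul, Finset.sum_add_distrib, app_add]
  have h : ∀ (r : Lin) (s : Sym), app r (∑ i, app (s.x i) (v i)) = ∑ i, app r (app (s.x i) (v i)) :=
    fun r s => map_sum (appHom r) _ _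
  rw [h, h]
  ext1
  · rfl
  · simp only
    abel

/-- Symbolic product. -/
def mulS (s t : Sym) : Sym :=
  comb (gadd s.g t.g) (1, lam s.g t.g) (1, mu s.g t.g) (F s.g t.g) s t

/-- Symbolic left division. -/
def ldivS (s p : Sym) : Sym :=
  comb (gadd s.g p.g) (3, lam s.g (gadd s.g p.g) ^^^ mu s.g (gadd s.g p.g))
    (1, mu s.g (gadd s.g p.g)) (app (3, mu s.g (gadd s.g p.g)) (F s.g (gadd s.g p.g))) s p

/-- Symbolic right division. -/
def rdivS (p t : Sym) : Sym :=
  comb (gadd p.g t.g) (1, lam (gadd p.g t.g) t.g)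
    (3, lam (gadd p.g t.g) t.g ^^^ mu (gadd p.g t.g) t.g)
    (app (3, lam (gadd p.g t.g) t.g) (F (gadd p.g t.g) t.g)) p t

theorem ev_mulS (s t : Sym) (v : Fin 5 → A) : ev (mulS s t) v = mulQ (ev s v) (ev t v) :=
  ev_comb _ _ _ _ _ _ _

theorem ev_ldivS (s t : Sym) (v : Fin 5 → A) : ev (ldivS s t) v = ldivQ (ev s v) (ev t v) :=
  ev_comb _ _ _ _ _ _ _

theorem ev_rdivS (s t : Sym) (v : Fin 5 → A) : ev (rdivS s t) v = rdivQ (ev s v) (ev t v) :=
  ev_comb _ _ _ _ _ _ _

/-- The `i`-th variable. -/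
def gen (g : Fin 4) (i : Fin 5) : Sym := ⟨g, 0, fun k => if k = i then (1, 0) else (0, 0)⟩

theorem ev_gen (g : Fin 4) (i : Fin 5) (v : Fin 5 → A) : ev (gen g i) v = ⟨g, v i⟩ := by
  unfold ev gen
  congr 1
  rw [Finset.sum_eq_single i]
  · simp [app, P_zero]
  · intro k _ hk
    simp [app, P_zero, hk]
  · simp

/-- Equality of the values of two words, as a Boolean test. -/
def same (s t : Sym) : Bool :=
  (s.g == t.g) && (s.c == t.c) &&
    (List.finRange 5).all fun i => ((s.x i).1 % 4 == (t.x i).1 % 4) && ((s.x i).2 == (t.x i).2)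

theorem ev_same {s t : Sym} (h : same s t = true) (v : Fin 5 → A) : ev s v = ev t v := by
  simp only [same, Bool.and_eq_true, beq_iff_eq, List.all_eq_true] at h
  obtain ⟨⟨h1, h2⟩, h3⟩ := h
  unfold ev
  rw [h1, h2]
  congr 2
  refine Finset.sum_congr rfl fun i _ => ?_
  obtain ⟨h4, h5⟩ := h3 i (List.mem_finRange i)
  unfold app
  rw [h5]
  congr 1
  rw [← Nat.div_add_mod (s.x i).1 4, ← Nat.div_add_mod (t.x i).1 4, h4, add_smul, add_smul,
    mul_comm 4, mul_comm 4, mul_smul, mul_smul, four_smul_A, smul_zero, smul_zero]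

/-- The left side of the identity to be checked. -/
def lhsS (a b x y z : Sym) : Sym :=
  let p := rdivS x b
  let q := ldivS a x
  mulS a (ldivS p (mulS (rdivS (mulS (rdivS y b) (ldivS a z)) b) q))

/-- The right side of the identity to be checked. -/
def rhsS (a b x y z : Sym) : Sym :=
  let p := rdivS x b
  let q := ldivS a x
  mulS (rdivS (mulS a (ldivS p (mulS (rdivS y b) q))) b)
    (ldivS a (mulS a (ldivS p (mulS (rdivS z b) q))))

/-- The check. -/
def check : Bool :=
  (List.finRange 4).all fun a => (List.finRange 4).all fun b => (List.finRange 4).all fun x =>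
    (List.finRange 4).all fun y => (List.finRange 4).all fun z =>
      same (lhsS (gen a 0) (gen b 1) (gen x 2) (gen y 3) (gen z 4))
        (rhsS (gen a 0) (gen b 1) (gen x 2) (gen y 3) (gen z 4))

set_option maxRecDepth 100000 in
theorem check_eq : check = true := by decide +kernel

theorem check_apply (a b x y z : Fin 4) :
    same (lhsS (gen a 0) (gen b 1) (gen x 2) (gen y 3) (gen z 4))
      (rhsS (gen a 0) (gen b 1) (gen x 2) (gen y 3) (gen z 4)) = true := by
  have h := check_eq
  simp only [check, List.all_eq_true] at h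
  exact h a (List.mem_finRange a) b (List.mem_finRange b) x (List.mem_finRange x) y
    (List.mem_finRange y) z (List.mem_finRange z)

theorem core (a b x y z : Q) :
    mulQ a (ldivQ (rdivQ x b) (mulQ (rdivQ (mulQ (rdivQ y b) (ldivQ a z)) b) (ldivQ a x))) =
      mulQ (rdivQ (mulQ a (ldivQ (rdivQ x b) (mulQ (rdivQ y b) (ldivQ a x)))) b)
        (ldivQ a (mulQ a (ldivQ (rdivQ x b) (mulQ (rdivQ z b) (ldivQ a x))))) := by
  have h := ev_same (check_apply a.g b.g x.g y.g z.g) ![a.a, b.a, x.a, y.a, z.a]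
  simp only [lhsS, rhsS, ev_mulS, ev_ldivS, ev_rdivS, ev_gen] at h
  exact h

theorem mu_zero : ∀ g : Fin 4, mu 0 g = 0 := by decide

theorem lam_zero : ∀ g : Fin 4, lam g 0 = 0 := by decide

theorem F_zero_left : ∀ g : Fin 4, F 0 g = 0 := by decide

theorem F_zero_right : ∀ g : Fin 4, F g 0 = 0 := by decide

theorem gadd_zero_left : ∀ g : Fin 4, gadd 0 g = g := by decide

theorem gadd_zero_right : ∀ g : Fin 4, gadd g 0 = g := by decide

instance : Loop Q where
  mul := mulQ
  one := ⟨0, 0⟩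
  ldiv := ldivQ
  rdiv := rdivQ
  one_mul' x := by
    show mulQ ⟨0, 0⟩ x = x
    ext1
    · exact gadd_zero_left _
    · simp only [mulQ, combQ, mu_zero, F_zero_left, app_zero]
      simp [app, P_zero]
  mul_one' x := by
    show mulQ x ⟨0, 0⟩ = x
    ext1
    · exact gadd_zero_right _
    · simp only [mulQ, combQ, lam_zero, F_zero_right, app_zero]
      simp [app, P_zero]
  mul_ldiv := mul_ldivQ
  ldiv_mul := ldiv_mulQ
  rdiv_mul t p := rdiv_mulQ p t
  mul_rdiv t s := mul_rdivQ s t

/-- `Q` is isotopic only to loops with property (T). -/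
theorem univ : UniversallyT Q := by
  intro G _ ⟨α, β, γ, h⟩ x
  -- `γ` is an isomorphism onto a principal isotope
  have hβ : ∀ v : G, β v = ldiv (α 1) (γ v) := by
    intro v
    have := h 1 v
    rw [one_mul'] at this
    rw [this, ldiv_mul]
  have hα : ∀ u : G, α u = rdiv (γ u) (β 1) := by
    intro u
    have := h u 1
    rw [mul_one'] at this
    rw [this, mul_rdiv]
  have hγ : ∀ u v : G, γ (u * v) = rdiv (γ u) (β 1) * ldiv (α 1) (γ v) := by
    intro u v
    rw [h, hα u, hβ v]
  have hl : ∀ u v : G, γ (ldiv u v) = α 1 * ldiv (rdiv (γ u) (β 1)) (γ v) := by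
    intro u v
    have h1 := hγ u (ldiv u v)
    rw [mul_ldiv] at h1
    rw [h1, ldiv_mul, mul_ldiv]
  refine ⟨{ toFun := fun y => ldiv x (y * x)
            invFun := fun y => rdiv (x * y) x
            left_inv := fun y => ?_
            right_inv := fun y => ?_
            map_mul' := fun y z => ?_ }, fun y => rfl⟩
  · simp only [mul_ldiv, mul_rdiv]
  · simp only [rdiv_mul, ldiv_mul]
  · apply γ.injective
    simp only [hγ, hl]
    exact core (α 1) (β 1) (γ x) (γ y) (γ z)

theorem not_aaip : ¬ HasAAIP Q := by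
  rintro ⟨inv, h1, h2⟩
  have h3 : ∀ x : Q, inv x = ldivQ x 1 := by
    intro x
    have := (h1 x).1
    rw [← this]
    exact (ldiv_mulQ x (inv x)).symm
  have h4 := h2 ⟨1, 0⟩ ⟨2, 0⟩
  rw [h3, h3, h3] at h4
  have h5 : ldivQ (mulQ ⟨1, 0⟩ ⟨2, 0⟩) ⟨0, 0⟩ ≠ mulQ (ldivQ ⟨2, 0⟩ ⟨0, 0⟩) (ldivQ ⟨1, 0⟩ ⟨0, 0⟩) := by
    decide +kernel
  exact h5 h4

theorem card_Q : Nat.card Q = 128 := by
  let e : Q ≃ Fin 4 × A :=
    { toFun := fun x => (x.g, x.a)
      invFun := fun x => ⟨x.1, x.2⟩
      left_inv := fun _ => rfl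
      right_inv := fun _ => rfl }
  rw [Nat.card_congr e]
  simp

/-- **Property (T) holding universally does not imply the AAIP.** There is a loop of order 128
such that property (T) holds in every loop isotope of it, but which does not have the
antiautomorphic inverse property. -/
theorem result : ∃ (Q : Type) (_ : Loop Q), Nat.card Q = 128 ∧ UniversallyT Q ∧ ¬ HasAAIP Q :=
  ⟨Q, inferInstance, card_Q, univ, not_aaip⟩

end Pool.Agent.Results.MP_0d4ca0_al.OrderOneTwentyEight
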